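import Pool.Agent.helper62.DP8.Spec

set_option autoImplicit false

namespace Pool.Agent.helper62.DP8

theorem AA2 (hPIG : PIG_stmt) (hCLO : CLO_stmt) : AA2_stmt := by
  intro g W a R t hC c h0 hφ hc
  have g5 := hC.g5
  have hg1 : c (g - 1) ∈ a (g - 1) := hc.mem (g - 1) (by omega) (by omega)
  have h2m : c 2 ∈ a 2 := hc.mem 2 (by omega) (by omega)
  have h3m : c 3 ∈ a 3 := hc.mem 3 (by omega) (by omega)
  obtain ⟨s0, hs0⟩ : ∃ s, ¬ t 0 s (c (g - 1)) := by
    have hm : c (g - 1) ∈ a (g - 2 + 1) := by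
      have e : g - 2 + 1 = g - 1 := by omega
      rw [e]
      exact hg1
    have h := hC.sgn (g - 2) g (by omega) (by omega) (c (g - 1)) hm
    have hp : ∀ s, t g s (c (g - 1)) ↔ t 0 s (c (g - 1)) := by
      intro s
      have := hC.pt 0 s (c (g - 1))
      rwa [Nat.zero_add] at this
    rw [hp, hp] at h
    by_cases h' : t 0 true (c (g - 1))
    · exact ⟨false, fun h'' => h ⟨h', h''⟩⟩
    · exact ⟨true, h'⟩
  obtain ⟨x, hx, hP⟩ := hPIG W (a 1) [R (c 0), R (c 2), R (c 3), R (c (g - 1)), t 0 s0]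
    (by have := hC.six 1; simp only [List.length_cons, List.length_nil]; omega) (by
    intro p hp
    simp only [List.mem_cons, List.not_mem_nil, or_false] at hp
    rcases hp with rfl | rfl | rfl | rfl | rfl
    · exact fun u hu v hv h h' => hC.mat 0 1 (by omega) (by omega) (c 0) h0 u hu v hv h h'
    · exact fun u hu v hv h h' => hC.mat' 1 2 (by omega) (by omega) (c 2) h2m u hu v hv h h'
    · exact fun u hu v hv h h' => hC.mat' 1 3 (by omega) (by omega) (c 3) h3m u hu v hv h h'
    · exact fun u hu v hv h h' => hC.mat' 1 (g - 1) (by omega) (by omega) (c (g - 1)) hg1 u hu v hv h h'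
    · exact fun u hu v hv h h' => hC.one 0 0 s0 (by omega) (by omega) u hu v hv h h')
  have x1 : ¬ R (c 0) x := hP _ (by simp)
  have x2 : ¬ R (c 2) x := hP _ (by simp)
  have x3 : ¬ R (c 3) x := hP _ (by simp)
  have x4 : ¬ R (c (g - 1)) x := hP _ (by simp)
  have x5 : ¬ t 0 s0 x := hP _ (by simp)
  obtain ⟨c', cx, co⟩ : ∃ c' : ℕ → W, c' 1 = x ∧ ∀ j, j ≠ 1 → c' j = c j :=
    ⟨fun j => if j = 1 then x else c j, by simp, by intro j hj; simp [hj]⟩
  have sg : ∀ j, j ≤ 2 → ∃ s, ¬ t j s x := by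
    intro j hj
    have h := hC.sgn 0 j (by omega) (by omega) x hx
    by_cases h' : t j true x
    · exact ⟨false, fun h'' => h ⟨h', h''⟩⟩
    · exact ⟨true, h'⟩
  refine hCLO g W a R t c' hC ?_ ?_ ?_ ?_ ?_ ?_ ?_ ?_ ?_
  · intro j hj
    by_cases h1 : j = 1
    · subst h1
      rw [cx]
      exact hx
    · rw [co j h1]
      by_cases h2 : j = 0
      · subst h2
        exact h0
      · exact hc.mem j (by omega) (by omega)
  · intro j hj
    by_cases h1 : j = 1
    · subst h1
      rw [cx, co (1 + 1) (by omega)]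
      exact fun h => x2 (hC.symm _ _ h)
    · rw [co j h1]
      by_cases h2 : j = 0
      · subst h2
        rw [Nat.zero_add, cx]
        exact x1
      · rw [co (j + 1) (by omega)]
        exact hc.r1 j (by omega) (by omega)
  · intro j hj
    rw [co (j + 2) (by omega)]
    by_cases h1 : j = 1
    · subst h1
      rw [cx]
      exact fun h => x3 (hC.symm _ _ h)
    · rw [co j h1]
      by_cases h2 : j = 0
      · subst h2
        exact hc.r0 2 (by omega) (by omega)
      · exact hc.r2 j (by omega) (by omega)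
  · intro j hj
    rw [co (j + 2) (by omega)]
    by_cases h1 : j = 1
    · subst h1
      obtain ⟨s, hs⟩ := sg 2 (by omega)
      rw [cx, co (1 + 1) (by omega)]
      exact ⟨s, hs, (hc.p12 s).2.1, (hc.p12 s).2.2⟩
    · rw [co j h1]
      by_cases h2 : j = 0
      · subst h2
        obtain ⟨s, hs⟩ := sg 1 (by omega)
        rw [Nat.zero_add, cx]
        exact ⟨s, (hφ s).2.2, hs, (hc.p12 s).1⟩
      · rw [co (j + 1) (by omega)]
        exact hc.pn j (by omega) (by omega)
  · rw [co (g - 1) (by omega), co 0 (by omega)]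
    exact fun h => hc.r0 (g - 1) (by omega) (by omega) (hC.symm _ _ h)
  · rw [co (g - 1) (by omega), cx]
    exact x4
  · rw [co (g - 2) (by omega), co 0 (by omega)]
    exact fun h => hc.r0 (g - 2) (by omega) (by omega) (hC.symm _ _ h)
  · rw [co (g - 2) (by omega), co (g - 1) (by omega), co 0 (by omega)]
    obtain ⟨s, h1, h2⟩ := hc.pm
    have e : g - 1 - 1 = g - 2 := by omega
    rw [e] at h1
    exact ⟨s, h1, h2, (hφ s).1⟩
  · rw [co (g - 1) (by omega), co 0 (by omega), cx]
    exact ⟨s0, hs0, (hφ s0).2.1, x5⟩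

end Pool.Agent.helper62.DP8
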